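import Mathlib
import Pool.Agent.H525.EX.Total2
import Pool.Agent.H525.EX.Dig

/-!
# An exact formula for the primes of the form `x ^ 4 + t y ^ 4` over `F_q[t]`, `q` even
-/

namespace Pool.Agent.Results.MP_484c84_nt.ExactFormulaForAQuarticForm

open Polynomial
open Pool.Agent.H525.QF Pool.Agent.H525.EX

theorem result (K : Type) [Field K] [Fintype K] (κ : ℕ) (hκ : Fintype.card K = 2 ^ κ)
    (P : ℕ → ℕ) (hP : ∀ N : ℕ, P N = {f : K[X] | f.Monic ∧ Irreducible f ∧ f.natDegree = N ∧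
      ∃ x y : K[X], f = x ^ 4 + X * y ^ 4}.ncard) :
    -- the values of the form are the polynomials with vanishing coefficients of `X ^ i`,
    -- `i ≡ 2, 3` modulo `4`
    (∀ f : K[X], (∃ x y : K[X], f = x ^ 4 + X * y ^ 4) ↔ ∀ i : ℕ, 2 ≤ i % 4 → f.coeff i = 0) ∧
    -- the degrees without primes
    (∀ N : ℕ, 2 ≤ N % 4 → P N = 0) ∧
    (∀ n : ℕ, Odd (κ * n) → P (4 * n + 1) = 0) ∧
    (∀ n : ℕ, Even (κ * n) → P (4 * n) = 0) ∧
    -- the exact formula in degrees `N = 4 n + 1`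
    (∀ N : ℕ, N % 4 = 1 →
      ∑ f ∈ N.divisors with f % 4 = 1, (f : ℤ) * (P f : ℤ) *
          ∑ d ∈ (N / f).divisors, jacobiSym (-(2 : ℤ) ^ κ) d *
            ((2 : ℤ) ^ κ) ^ (f * ((d - 1) * (N / f / d - 1) / 4)) =
        ∑ d ∈ N.divisors, jacobiSym (-(2 : ℤ) ^ κ) d *
          ((2 : ℤ) ^ κ) ^ ((d + 1) * (N / d + 1) / 4)) ∧
    -- the exact formula in degrees `4 n`
    (∀ n : ℕ, Odd (κ * n) →
      ∑ m ∈ n.divisors with n / m % 4 = 1, (4 * m : ℤ) * (P (4 * m) : ℤ) *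
          ∑ d ∈ (n / m).divisors, jacobiSym (-1) d *
            ((2 : ℤ) ^ κ) ^ (m * ((d - 1) * (n / m / d - 1))) =
        2 * ((2 : ℤ) ^ κ) ^ n *
          ∑ c ∈ n.divisors, jacobiSym (-1) (n / c) * (((2 : ℤ) ^ κ) ^ c - 1)) ∧
    -- the asymptotic formula, with a power saving error term
    (∀ n : ℕ, Even (κ * n) →
      |((4 * n + 1) * P (4 * n + 1) : ℝ) - 2 * (2 ^ κ) ^ (2 * n + 1)| ≤
        2 * (4 * n + 1) ^ 3 * (2 ^ κ) ^ ((4 * n + 4) / 3)) ∧
    (∀ n : ℕ, Odd (κ * n) →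
      |(4 * n * P (4 * n) : ℝ) - 2 * (2 ^ κ) ^ (2 * n)| ≤
        2 * (4 * n) ^ 3 * (2 ^ κ) ^ ((4 * n + 3) / 3)) ∧
    -- prime degrees
    (∀ n : ℕ, Even (κ * n) → (4 * n + 1).Prime →
      (4 * n + 1) * P (4 * n + 1) + 2 * 2 ^ κ = 2 * (2 ^ κ) ^ (2 * n + 1)) := by
  classical
  have hchar : CharP K 2 := by
    obtain ⟨p, hp⟩ := CharP.exists K
    haveI := hp
    obtain ⟨m, hpp, hm⟩ := FiniteField.card K p
    rw [hκ] at hm
    have h1 : p ∣ 2 ^ κ := by
      rw [hm]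
      exact dvd_pow_self p m.ne_zero
    have h2 : p = 2 := (Nat.prime_dvd_prime_iff_eq hpp Nat.prime_two).1 (hpp.dvd_of_dvd_pow h1)
    rw [h2] at hp
    exact hp
  have hκ1 : 1 ≤ κ := by
    rcases Nat.eq_zero_or_pos κ with h0 | h0
    · exfalso
      rw [h0, pow_zero] at hκ
      have := Fintype.one_lt_card (α := K)
      omega
    · exact h0
  have hPF : ∀ N, P N = (PF K N).ncard := fun N => hP N
  have h41 : ∀ n, P (4 * n + 1) = pri K n := fun n => by rw [hPF, ncard_one]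
  have h40 : ∀ n, P (4 * n) = pri' K n := fun n => by rw [hPF, ncard_four]
  have hid := fun n => ident (K := K) all Pool.Agent.H177.EX.t_cdiv κ hκ n
  have hbd := Pool.Agent.H441.EX.t_bd κ (pri K) hκ1
    (fun m => by have := pri_le (K := K) m; rwa [hκ] at this)
    (by have := pri_zero (K := K); rwa [hκ] at this) hid
  have hodd : ∀ n : ℕ, Odd (κ * n) → Odd κ ∧ Odd n := fun n h => Nat.odd_mul.1 h
  have hbd2 := fun hκo : Odd κ => Pool.Agent.H734.EX.t_bd2 κ (pri' K) hκo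
    (fun m => by have := pri'_le (K := K) m; rwa [hκ] at this)
    (fun n hn => ident2 (K := K) all2 hκ hκo n hn)
  refine ⟨fun f => (digits f).symm, fun N hN => by rw [hPF, ncard_other N hN], fun n hn => ?_, fun n hn => ?_,
    fun N hN => ?_, fun n hn => ?_, fun n hn => ?_, fun n hn => ?_, fun n hn hp => ?_⟩
  · rw [h41]
    exact pri_odd Pool.Agent.H591.QF.t_par κ hκ n (Nat.not_even_iff_odd.2 hn)
  · rw [h40]
    exact pri'_even Pool.Agent.H591.QF.t_par κ hκ n hn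
  · obtain ⟨n, rfl⟩ : ∃ n, N = 4 * n + 1 := ⟨N / 4, by omega⟩
    have h := hid n
    unfold Ident at h
    rw [← h]
    refine Finset.sum_congr rfl (fun f hf => ?_)
    rw [Finset.mem_filter] at hf
    have h1 : P f = pri K ((f - 1) / 4) := by
      rw [← h41]
      congr 1
      omega
    rw [h1]
  · have h := ident2 (K := K) all2 hκ (hodd n hn).1 n (hodd n hn).2
    unfold Ident2 at h
    rw [← h]
    exact Finset.sum_congr rfl (fun m _ => by rw [h40])
  · rw [h41]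
    exact (hbd n hn).2
  · rw [h40]
    exact ((hbd2 (hodd n hn).1) n (hodd n hn).2).2.2
  · rw [h41]
    exact (hbd n hn).1 hp

end Pool.Agent.Results.MP_484c84_nt.ExactFormulaForAQuarticForm
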