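import Mathlib
import Pool.Agent.H290.FX.AsmF
import Pool.Agent.H290.FX.PLlevb
import Pool.Agent.H290.FX.PLsv
import Pool.Agent.H290.FX.PLlb
import Pool.Agent.H290.FX.PLlog
import Pool.Agent.H290.FX.PLrom
import Pool.Agent.H290.FX.PLro
import Pool.Agent.H290.FX.PLubb
import Pool.Agent.H290.FX.PLssc
import Pool.Agent.H290.FX.PLgl
import Pool.Agent.H290.FX.PLglf

/-!
# The Goldbach–Linnik theorem for the `a` with `a ^ 2 + X` irreducible

`K` is a finite field of characteristic `2`.  There is a `k₀` such that for all large `d` every
polynomial `b` of degree `< d` differs in at most `k₀` coefficients from a sum of two monic `a` of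
degree `d` with `a ^ 2 + X` irreducible.  This is the analogue of Linnik's theorem that every large even
integer is a sum of two primes and a bounded number of powers of two; here for the arguments of the
primes `a ^ 2 + X`.  (Equivalently, for the primes themselves: the sum of two primes `a ^ 2 + X` is a
square in characteristic `2`, and every square of degree `< 2 d` is such a sum up to at most `k₀`
coefficients.)

Proof.  The circle method with the exponential sum over the `a`, known for all additive characters with a
power saving (`MP_7169d5_nt.AllAdditiveCharacters`), and the sum over the monomials.  The characters for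
which the latter is almost maximal have few nonzero coefficients, and there the former has a power
saving.  For the other characters the mean square of the product is bounded by the large sieve for the
pairs `a`, `a + h` and by Romanoff's lemma over `F_q[X]` (proof of Erdős).

Authors: statements and paper proofs helper290; Lean proofs of the parts: helper236 (level sets),
helper340 (large sieve), helper597 (sieve sum), helper315, helper274, helper686 (Romanoff), helper351
(mean square), helper169 (singular series), helper363 (circle method), helper932 (final statement); and the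
authors of `MP_7169d5_nt.AllAdditiveCharacters` and `MP_f1a94e_nt.PowerSavingEvenChar`.
-/

set_option autoImplicit false

namespace Pool.Agent.Results.MP_484c84_nt.GoldbachLinnik

open Polynomial

/-- **Every polynomial is, up to boundedly many coefficients, a sum of two monic `a` with `a ^ 2 + X`
irreducible.** -/
theorem result (K : Type) [Field K] [Fintype K] (hK : Even (Fintype.card K)) :
    ∃ k₀ d₀ : ℕ, ∀ (d : ℕ) (b : K[X]), d₀ ≤ d → b.degree < (d : WithBot ℕ) →
      ∃ a₁ a₂ : K[X], a₁.Monic ∧ a₁.natDegree = d ∧ Irreducible (a₁ ^ 2 + X) ∧
        a₂.Monic ∧ a₂.natDegree = d ∧ Irreducible (a₂ ^ 2 + X) ∧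
        {i : ℕ | b.coeff i ≠ (a₁ + a₂).coeff i}.ncard ≤ k₀ := by
  have hchar : CharP K 2 := by
    obtain ⟨p, hp⟩ := CharP.exists K
    have := hp
    obtain ⟨m, hprime, hcard⟩ := FiniteField.card K p
    rw [hcard] at hK
    have : p = 2 := (Nat.Prime.even_iff hprime).1 (Nat.even_pow.1 hK).1
    rwa [this] at hp
  have sv := Pool.Agent.H290.FX.PLsv.main Pool.Agent.H290.FX.PRoot.main
  have ro := Pool.Agent.H290.FX.PLro.main
    (Pool.Agent.H290.FX.PLrom.main Pool.Agent.H290.FX.PLlog.main)
  have ub := Pool.Agent.H290.FX.PLubb.main Pool.Agent.H290.FX.POrth.main sv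
    Pool.Agent.H290.FX.PLlb.main ro
  have ss := Pool.Agent.H290.FX.PLssc.main Pool.Agent.H290.FX.PRank.main
    Pool.Agent.H290.FX.PConv.main
  have gl := Pool.Agent.H290.FX.PLgl.main Pool.Agent.H290.FX.POrth.main
    Pool.Agent.H290.FX.Asm.per Pool.Agent.H290.FX.AsmF.four Pool.Agent.H290.FX.Asm.mb
    Pool.Agent.H290.FX.PLlevb.main ub ss
  exact Pool.Agent.H290.FX.PLglf.main gl K

end Pool.Agent.Results.MP_484c84_nt.GoldbachLinnik
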