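import Pool.Agent.H543.DD.Fin3
import Pool.Graph.R_seed8.W366.DC.SFX
import Pool.Graph.R_seed8.Y445.JRB.Buch

/-!
# The linear sieve for `n ^ 2 + 1` beyond the level one, in short intervals

The theorem of Jurkat and Richert for the numbers `n ^ 2 + 1`, `X < n ≤ X + H`, for all
`X ^ (1 - δ) ≤ H ≤ X`, with every level of distribution `X ^ θ`, `θ < 13 / 12`.  It follows that at most
`(48 / 13 + ε) (L / 2) H / log X` of these `n` give a prime `n ^ 2 + 1`, where `L / 2` is the
constant of the conjecture, and that `≫ H / log X` of them give a number `n ^ 2 + 1` without prime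
factors `≤ n ^ η`, for every `η < 13 / 24`.
-/

set_option autoImplicit false

namespace Pool.Agent.Results.MP_484c84_nt.LinearSieveBeyondLevelOne

open Filter Finset Topology

/-- The functions of the linear sieve (Jurkat and Richert): the continuous solutions on `[1, ∞)` of
`s F(s) = 2 e ^ γ` for `1 ≤ s ≤ 3`, `f(s) = 0` for `1 ≤ s ≤ 2`, `(s F(s))' = f(s - 1)` for `s ≥ 3`
and `(s f(s))' = F(s - 1)` for `s ≥ 2`. -/
structure LinearSieve (F f : ℝ → ℝ) : Prop where
  continuous_upper : ContinuousOn F (Set.Ici 1)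
  continuous_lower : ContinuousOn f (Set.Ici 1)
  start_upper : ∀ s : ℝ, 1 ≤ s → s ≤ 3 → s * F s = 2 * Real.exp Real.eulerMascheroniConstant
  start_lower : ∀ s : ℝ, 1 ≤ s → s ≤ 2 → f s = 0
  upper : ∀ s : ℝ, 3 ≤ s →
    s * F s = 2 * Real.exp Real.eulerMascheroniConstant + ∫ x in (3 : ℝ)..s, f (x - 1)
  lower : ∀ s : ℝ, 2 ≤ s → s * f s = ∫ x in (2 : ℝ)..s, F (x - 1)

/-- The sieve density of `n ^ 2 + 1`: the product over the primes `p < z` of `1 - ρ(p) / p`, where
`ρ(p)` is the number of the residues `m` modulo `p` with `p ∣ m ^ 2 + 1`. -/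
noncomputable def density (z : ℝ) : ℝ :=
  ∏ p ∈ (Finset.range ⌈z⌉₊).filter Nat.Prime,
    (1 - (((Finset.range p).filter (fun m : ℕ => p ∣ m ^ 2 + 1)).card : ℝ) / p)

open Classical in
/-- The number of the `n` in `(X, X + H]` such that `n ^ 2 + 1` has no prime factor below `z`. -/
noncomputable def roughCount (z : ℝ) (X H : ℕ) : ℕ :=
  ((Finset.Ioc X (X + H)).filter
    (fun n : ℕ => ∀ p : ℕ, p.Prime → p ∣ n ^ 2 + 1 → z ≤ p)).card

/-- The number of the `n` in `(X, X + H]` such that `n ^ 2 + 1` is prime. -/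
def primeCount (X H : ℕ) : ℕ :=
  ((Finset.Ioc X (X + H)).filter (fun n : ℕ => (n ^ 2 + 1).Prime)).card

/-- `P X` holds for all large `X` in all intervals `(X, X + H]` with `X ^ (1 - δ) ≤ H ≤ X`, for
some `δ > 0`. -/
def InShortIntervals (P : ℕ → ℕ → Prop) : Prop :=
  ∃ δ : ℝ, 0 < δ ∧ ∀ᶠ X : ℕ in atTop, ∀ H : ℕ, (X : ℝ) ^ (1 - δ) ≤ H → H ≤ X → P X H

theorem density_eq (z : ℝ) : density z = Pool.Agent.Y882.JR.dens 1 z := by
  unfold density Pool.Agent.Y882.JR.dens
  refine prod_congr rfl fun p _ => ?_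
  congr 4
  ext m
  norm_cast

theorem rough_eq (z : ℝ) (X H : ℕ) : roughCount z X H = Pool.Agent.Y882.JR.rough 1 z X H := by
  unfold roughCount Pool.Agent.Y882.JR.rough
  congr 1
  ext n
  simp only [mem_filter]
  norm_cast

open Classical in
/-- **The linear sieve for `n ^ 2 + 1` in short intervals with every level `X ^ θ`,
`θ < 13 / 12`.** -/
theorem result :
    ∃ F f : ℝ → ℝ, LinearSieve F f ∧ (∀ s : ℝ, 1 ≤ s → 1 ≤ F s ∧ f s ≤ 1) ∧
      (∀ s : ℝ, 2 < s → 0 < f s) ∧ Tendsto F atTop (𝓝 1) ∧ Tendsto f atTop (𝓝 1) ∧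
      ∃ L : ℝ, 0 < L ∧
        Tendsto (fun x : ℕ => ∏ p ∈ (Finset.range (x + 1)).filter (fun p => p.Prime ∧ Odd p),
          (1 - (((ZMod.χ₄ (p : ZMod 4) : ℤ) : ℝ)) / ((p : ℝ) - 1))) atTop (𝓝 L) ∧
        Tendsto (fun z : ℝ => density z * Real.log z) atTop
          (𝓝 (L * Real.exp (-Real.eulerMascheroniConstant))) ∧
        (∀ θ s ε : ℝ, 0 < θ → θ < 13 / 12 → 1 ≤ s → 0 < ε → InShortIntervals fun X H =>
          (f s - ε) * (H * density ((X : ℝ) ^ (θ / s))) ≤ (roughCount ((X : ℝ) ^ (θ / s)) X H : ℝ) ∧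
          (roughCount ((X : ℝ) ^ (θ / s)) X H : ℝ) ≤
            (F s + ε) * (H * density ((X : ℝ) ^ (θ / s)))) ∧
        (∀ ε : ℝ, 0 < ε → InShortIntervals fun X H =>
          (primeCount X H : ℝ) ≤ (48 / 13 + ε) * (L / 2 * (H / Real.log X))) ∧
        (∀ η : ℝ, 0 < η → η < 13 / 24 → ∃ c : ℝ, 0 < c ∧ InShortIntervals fun X H =>
          c * (H / Real.log X) ≤ (((Finset.Ioc X (X + H)).filter
            (fun n : ℕ => ∀ p : ℕ, p.Prime → p ∣ n ^ 2 + 1 → (n : ℝ) ^ η < p)).card : ℝ)) := by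
  obtain ⟨A0, F, f, hSF⟩ := Pool.Agent.W366.DC.SFX
  have hA : A0 = 2 * Real.exp Real.eulerMascheroniConstant := Pool.Agent.Y882.JR.A0_eq Pool.Agent.Y445.JRB.t hSF
  refine ⟨F, f, ?_, fun s hs => ⟨hSF.F1 s hs, hSF.f1 s hs⟩,
    fun s hs => Pool.Agent.H543.DD.f_low hSF s hs, Pool.Agent.Y882.JR.F_lim hSF,
    Pool.Agent.Y882.JR.f_lim hSF, ?_⟩
  · constructor
    · exact hSF.cF
    · exact hSF.cf
    · intro s h1 h3
      rw [hSF.F3 s h1 h3, ← hA]
      have : s ≠ 0 := by linarith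
      field_simp
    · exact hSF.f2
    · intro s hs
      rw [← hA]
      exact hSF.eF s hs
    · exact hSF.ef
  · obtain ⟨C, hC0, hC1, hC2⟩ := Pool.Agent.Y781.JR.t 1 Pool.Agent.H543.DD.not_sq_neg_one
    have hC2' : Tendsto (fun z : ℝ => density z * Real.log z) atTop
        (𝓝 (C * Real.exp (-Real.eulerMascheroniConstant))) := by
      apply hC2.congr
      intro z
      rw [density_eq]
    refine ⟨C, hC0, ?_, hC2', ?_, ?_, ?_⟩
    · have h1 : Tendsto (Pool.Agent.Y781.JR.RR 1) atTop (𝓝 C) := by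
        apply hC1.congr
        intro N
        rw [Pool.Agent.Y781.JR.dens_eq, Nat.ceil_natCast]
        change Pool.Agent.Y781.JR.GG N * Pool.Agent.Y781.JR.RR 1 N / Pool.Agent.Y781.JR.GG N = _
        rw [mul_div_cancel_left₀ _ (Pool.Agent.Y781.JR.GG_pos N).ne']
      have h2 := (tendsto_add_atTop_iff_nat 1).2 h1
      apply h2.congr
      intro N
      unfold Pool.Agent.Y781.JR.RR
      have h3 : (range (N + 1)).filter (fun p : ℕ => p.Prime ∧ p ≠ 2) =
          (range (N + 1)).filter (fun p => p.Prime ∧ Odd p) := by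
        ext p
        simp only [mem_filter]
        apply and_congr_right
        intro _
        apply and_congr_right
        intro hp
        constructor
        · exact fun h => hp.odd_of_ne_two h
        · rintro h rfl
          exact absurd h (by decide)
      rw [h3]
      refine prod_congr rfl fun p hp => ?_
      have h4 : jacobiSym (-1) p = ZMod.χ₄ (p : ZMod 4) :=
        jacobiSym.at_neg_one (mem_filter.1 hp).2.2
      rw [h4]
    · intro θ s ε h1 h2 h3 h4
      have h5 := Pool.Agent.H543.DD.lin_all Pool.Agent.Y346.PA.kl A0 F f hSF θ s h1 h2 h3 ε h4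
      unfold InShortIntervals
      simp only [rough_eq, density_eq]
      exact h5
    · intro ε hε
      obtain ⟨δ, hδ, h1⟩ := Pool.Agent.H543.DD.prime_up Pool.Agent.Y346.PA.kl A0 F f hSF hA C hC0
        hC2 (ε * (C / 2)) (by positivity)
      refine ⟨δ, hδ, ?_⟩
      filter_upwards [h1] with X h2
      intro H h3 h4
      refine (h2 H h3 h4).trans (le_of_eq ?_)
      ring
    · intro η h1 h2
      obtain ⟨δ, hδ, c, hc, h3⟩ := Pool.Agent.H543.DD.rough_low Pool.Agent.Y346.PA.kl A0 F f hSF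
        (C * Real.exp (-Real.eulerMascheroniConstant)) (by positivity) hC2 η h1 h2
      refine ⟨c, hc, δ, hδ, ?_⟩
      filter_upwards [h3] with X h4
      intro H h5 h6
      obtain ⟨S, hS1, hS2, hS3⟩ := h4 H h5 h6
      refine hS2.trans ?_
      have h7 : S ⊆ (Finset.Ioc X (X + H)).filter
          (fun n : ℕ => ∀ p : ℕ, p.Prime → p ∣ n ^ 2 + 1 → (n : ℝ) ^ η < p) := by
        intro n hn
        rw [mem_filter]
        exact ⟨hS1 hn, hS3 n hn⟩
      exact_mod_cast card_le_card h7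

end Pool.Agent.Results.MP_484c84_nt.LinearSieveBeyondLevelOne
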